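import Pool.Agent.Helper660.K3
import Pool.Agent.Helper660.Upper

set_option autoImplicit false

namespace Pool.Agent.Results.MP_8cf036_co.TightPathTheta

/-- The family `H` of vertex sets of `Fin N` contains a copy of the tight `k`-uniform path with
`s` edges: distinct vertices `v 0, ..., v (s + k - 2)` all of whose `s` windows of `k`
consecutive vertices lie in `H`. -/
def HasTightPath (k s N : ℕ) (H : Set (Finset (Fin N))) : Prop :=
  ∃ v : Fin (s + k - 1) → Fin N, Function.Injective v ∧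
    ∀ i : Fin s,
      (Finset.univ.filter (fun j : Fin (s + k - 1) =>
        i.val ≤ j.val ∧ j.val < i.val + k)).image v ∈ H

/-- Some `t` vertices span no `k`-element member of `H`. -/
def HasIndependentSet (k t N : ℕ) (H : Set (Finset (Fin N))) : Prop :=
  ∃ S : Finset (Fin N), S.card = t ∧ ∀ e : Finset (Fin N), e ⊆ S → e.card = k → e ∉ H

/-- The Ramsey number of the tight path with `s` edges against the complete `k`-graph on `t`
vertices. -/
noncomputable def tightRamsey (k s t : ℕ) : ℕ :=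
  sInf {N : ℕ | ∀ H : Set (Finset (Fin N)), HasTightPath k s N H ∨ HasIndependentSet k t N H}

/-- For all `k ≥ 3` and all `s ≥ k + 1` the Ramsey number of the tight path with `s` edges
against the complete `k`-graph on `t` vertices has order exactly `t ^ (k - 1)`. -/
theorem result : ∀ k : ℕ, 3 ≤ k → ∀ s : ℕ, k + 1 ≤ s →
    ∃ c C : ℝ, 0 < c ∧ 0 < C ∧ ∃ T : ℕ, ∀ t : ℕ, T ≤ t →
      (∃ N : ℕ, ∀ H : Set (Finset (Fin N)),
        HasTightPath k s N H ∨ HasIndependentSet k t N H) ∧
      c * (t : ℝ) ^ (k - 1) ≤ (tightRamsey k s t : ℝ) ∧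
      (tightRamsey k s t : ℝ) ≤ C * (t : ℝ) ^ (k - 1) := by
  intro k hk s hs
  have hlow : ∃ c0 : ℝ, 0 < c0 ∧ ∃ T : ℕ,
      ∀ s : ℕ, k + 1 ≤ s → ∀ t : ℕ, T ≤ t → ∀ n : ℕ, (n : ℝ) ≤ c0 * (t : ℝ) ^ (k - 1) →
          ¬ (∀ H : Set (Finset (Fin n)),
            (∃ v : Fin (s + k - 1) → Fin n, Function.Injective v ∧
              ∀ i : Fin s,
                (Finset.univ.filter (fun j : Fin (s + k - 1) =>
                    i.val ≤ j.val ∧ j.val < i.val + k)).image v ∈ H) ∨
            (∃ S : Finset (Fin n), S.card = t ∧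
              ∀ e : Finset (Fin n), e ⊆ S → e.card = k → e ∉ H)) := by
    rcases Nat.lt_or_ge k 4 with h | h
    · have : k = 3 := by omega
      subst this
      exact Pool.Agent.Helper660.TP.lower_three
    · obtain ⟨d, rfl⟩ : ∃ d, k = d + 1 := ⟨k - 1, by omega⟩
      exact Pool.Agent.Helper660.TP.lower_ge4 d (by omega)
  obtain ⟨c0, hc0, T0, hlow⟩ := hlow
  refine ⟨c0, ((s * k * 2 ^ k + k + 2 : ℕ) : ℝ), hc0, by positivity, max T0 1, fun t ht => ?_⟩
  have hmem : (s * k * 2 ^ k + k + 2) * t ^ (k - 1) ∈ {N : ℕ | ∀ H : Set (Finset (Fin N)),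
      HasTightPath k s N H ∨ HasIndependentSet k t N H} := fun H =>
    Pool.Agent.Helper660.TP.upper_bound (by omega) (by omega)
      (le_trans (le_max_right _ _) ht) le_rfl (by omega) H
  refine ⟨⟨_, hmem⟩, ?_, ?_⟩
  · by_contra hcon
    push Not at hcon
    exact hlow s hs t (le_trans (le_max_left _ _) ht) (tightRamsey k s t) hcon.le
      (Nat.sInf_mem ⟨_, hmem⟩)
  · have h1 : tightRamsey k s t ≤ (s * k * 2 ^ k + k + 2) * t ^ (k - 1) := Nat.sInf_le hmem
    exact_mod_cast h1

end Pool.Agent.Results.MP_8cf036_co.TightPathTheta
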